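import Pool.Agent.Lib.MP_aaa104_nt.H3Defs

/-!
Mixing two colorings along a union of color classes.
-/

set_option autoImplicit false

namespace Pool.Agent.Lib.MP_aaa104_nt

variable {n : ℕ}

lemma Khat.pos {x : ℚ} (hx : x ∈ Khat n) : 0 < x := by
  obtain ⟨a, b, ha, hb, -, -, rfl⟩ := hx
  positivity

lemma Khat.ne {x : ℚ} (hx : x ∈ Khat n) : x ≠ 0 := (Khat.pos hx).ne'

lemma Khat.nat {i : ℕ} (h1 : 1 ≤ i) (h2 : i ≤ n) : (i : ℚ) ∈ Khat n :=
  ⟨i, 1, h1, one_pos, fun _ _ h => (Nat.le_of_dvd h1 h).trans h2,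
    fun _ hp h => absurd (Nat.dvd_one.1 h) hp.one_lt.ne', by simp⟩

lemma Khat.one : (1 : ℚ) ∈ Khat n :=
  ⟨1, 1, one_pos, one_pos, fun _ hp h => absurd (Nat.dvd_one.1 h) hp.one_lt.ne',
    fun _ hp h => absurd (Nat.dvd_one.1 h) hp.one_lt.ne', by simp⟩

lemma Khat.mul {x y : ℚ} (hx : x ∈ Khat n) (hy : y ∈ Khat n) : x * y ∈ Khat n := by
  obtain ⟨a, b, ha, hb, h1, h2, rfl⟩ := hx
  obtain ⟨a', b', ha', hb', h1', h2', rfl⟩ := hy
  refine ⟨a * a', b * b', by positivity, by positivity,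
    fun p hp h => (hp.dvd_mul.1 h).elim (h1 p hp) (h1' p hp),
    fun p hp h => (hp.dvd_mul.1 h).elim (h2 p hp) (h2' p hp), ?_⟩
  push_cast
  field_simp

lemma Khat.inv {x : ℚ} (hx : x ∈ Khat n) : x⁻¹ ∈ Khat n := by
  obtain ⟨a, b, ha, hb, h1, h2, rfl⟩ := hx
  exact ⟨b, a, hb, ha, h2, h1, by rw [inv_div]⟩

lemma Khat.div {x y : ℚ} (hx : x ∈ Khat n) (hy : y ∈ Khat n) : x / y ∈ Khat n := by
  rw [div_eq_mul_inv]
  exact Khat.mul hx (Khat.inv hy)

lemma Khat.zpow {x : ℚ} (hx : x ∈ Khat n) (k : ℤ) : x ^ k ∈ Khat n := by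
  induction k using Int.induction_on with
  | zero => simpa using Khat.one
  | succ k ih => rw [zpow_add_one₀ (Khat.ne hx)]; exact Khat.mul ih hx
  | pred k ih => rw [zpow_sub_one₀ (Khat.ne hx)]; exact Khat.mul ih (Khat.inv hx)

lemma Khat.ind {P : ℚ → Prop} (h1 : P 1)
    (hm : ∀ p : ℕ, p.Prime → p ≤ n → ∀ x ∈ Khat n, (P ((p : ℚ) * x) ↔ P x)) :
    ∀ x ∈ Khat n, P x := by
  have key : ∀ a : ℕ, 0 < a → (∀ p : ℕ, p.Prime → p ∣ a → p ≤ n) →
      ∀ x ∈ Khat n, (P ((a : ℚ) * x) ↔ P x) := by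
    intro a
    induction a using induction_on_primes with
    | zero => intro h; exact absurd h (lt_irrefl 0)
    | one => intro _ _ x _; simp
    | prime_mul p a hp ih =>
      intro ha hs x hx
      have ha' : 0 < a := Nat.pos_of_mul_pos_left ha
      have hs' : ∀ q : ℕ, q.Prime → q ∣ a → q ≤ n := fun q hq h => hs q hq (h.mul_left p)
      have hax : (a : ℚ) * x ∈ Khat n :=
        Khat.mul ⟨a, 1, ha', one_pos, hs',
          fun _ hq h => absurd (Nat.dvd_one.1 h) hq.one_lt.ne', by simp⟩ hx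
      rw [Nat.cast_mul, mul_assoc, hm p hp (hs p hp (dvd_mul_right p a)) _ hax, ih ha' hs' x hx]
  intro x hx
  obtain ⟨a, b, ha, hb, h2, h3, e⟩ := id hx
  rw [← key b hb h3 x hx]
  have : (b : ℚ) * x = a * 1 := by
    rw [e]
    field_simp
  rw [this, key a ha h2 1 Khat.one]
  exact h1

lemma Satisfactory.inj {c : ℚ → ℕ} (hc : Satisfactory n c) {x : ℚ} (hx : x ∈ Khat n) {i j : ℕ}
    (hi : 1 ≤ i) (hi' : i ≤ n) (hj : 1 ≤ j) (hj' : j ≤ n)
    (h : c ((i : ℚ) * x) = c ((j : ℚ) * x)) : i = j := by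
  rcases lt_trichotomy i j with h1 | h1 | h1
  · exact absurd h (hc.2.2 x hx i j hi h1 hj')
  · exact h1
  · exact absurd h.symm (hc.2.2 x hx j i hj h1 hi')

/-- Having the same color is invariant under translations. -/
def Inv (n : ℕ) (c : ℚ → ℕ) : Prop :=
  ∀ z ∈ Khat n, ∀ x ∈ Khat n, ∀ y ∈ Khat n, (c (z * x) = c (z * y) ↔ c x = c y)

lemma Recovers.inv (h : Recovers n) {c : ℚ → ℕ} (hc : Satisfactory n c) : Inv n c := by
  have step : ∀ i : ℕ, 1 ≤ i → i ≤ n → ∀ x ∈ Khat n, ∀ y ∈ Khat n,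
      (c ((i : ℚ) * x) = c ((i : ℚ) * y) ↔ c x = c y) := by
    intro i h1 h2 x hx y hy
    obtain ⟨l, -, -, hl⟩ := h c hc (c x) (hc.1 x hx).1 (hc.1 x hx).2 i h1 h2
    have hi : (i : ℚ) ≠ 0 := Khat.ne (Khat.nat h1 h2)
    have key : ∀ w ∈ Khat n, (c w = c x ↔ c ((i : ℚ) * w) = l) := by
      intro w hw
      have hiw := Khat.mul (Khat.nat h1 h2) hw
      have := Set.ext_iff.1 hl ((i : ℚ) * w)
      simp only [part, colorClass, Set.mem_ofPred_eq, mul_div_cancel_left₀ w hi] at this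
      tauto
    rw [(key x hx).1 rfl, eq_comm, ← key y hy, eq_comm]
  refine Khat.ind (by simp) fun p hp hpn z hz => ?_
  refine forall₂_congr fun x hx => forall₂_congr fun y hy => ?_
  rw [mul_assoc, mul_assoc, step p hp.one_le hpn _ (Khat.mul hz hx) _ (Khat.mul hz hy)]

/-- Two translation invariant colorings with different classes of `1` that respect a set `U`. -/
def Datum (n : ℕ) : Prop :=
  ∃ (c₁ c₂ : ℚ → ℕ) (U : ℚ → Prop), Satisfactory n c₁ ∧ Satisfactory n c₂ ∧ Inv n c₁ ∧ Inv n c₂ ∧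
    (∀ y ∈ Khat n, (U (c₁ y : ℚ) ↔ U y)) ∧ (∀ y ∈ Khat n, (U (c₂ y : ℚ) ↔ U y)) ∧ U 1 ∧
    (∃ z ∈ Khat n, ¬U z) ∧ ∃ y ∈ Khat n, c₁ y = 1 ∧ c₂ y ≠ 1

lemma Satisfactory.surj {c : ℚ → ℕ} (hc : Satisfactory n c) {x : ℚ} (hx : x ∈ Khat n) {l : ℕ}
    (h1 : 1 ≤ l) (h2 : l ≤ n) : ∃ i : ℕ, 1 ≤ i ∧ i ≤ n ∧ c ((i : ℚ) * x) = l := by
  have := Finset.surjOn_of_injOn_of_card_le (s := Finset.Icc 1 n) (t := Finset.Icc 1 n)
    (fun i : ℕ => c ((i : ℚ) * x))
    (fun i hi => by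
      have hi' := Finset.mem_Icc.1 hi
      exact Finset.mem_Icc.2 (hc.1 _ (Khat.mul (Khat.nat hi'.1 hi'.2) hx)))
    (fun i hi j hj e => by
      have hi' := Finset.mem_Icc.1 hi
      have hj' := Finset.mem_Icc.1 hj
      exact hc.inj hx hi'.1 hi'.2 hj'.1 hj'.2 e) le_rfl
  obtain ⟨i, hi, e⟩ := this (Finset.mem_coe.2 (Finset.mem_Icc.2 ⟨h1, h2⟩))
  have hi' := Finset.mem_Icc.1 hi
  exact ⟨i, hi'.1, hi'.2, e⟩

/-- The mixed coloring is recovered from none of its classes. -/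
theorem Datum.strong (h : Datum n) (hn : 1 ≤ n) :
    ∃ c : ℚ → ℕ, Satisfactory n c ∧ ∀ k : ℕ, 1 ≤ k → k ≤ n → ∃ i : ℕ, 1 ≤ i ∧ i ≤ n ∧
      ∀ l : ℕ, part n (colorClass n c k) i ≠ colorClass n c l := by
  classical
  obtain ⟨c₁, c₂, U, h₁, h₂, i₁, i₂, u₁, u₂, hU, ⟨z, hz, hzU⟩, y, hy, e₁, e₂⟩ := h
  let c : ℚ → ℕ := fun y => if U y then c₁ y else c₂ y
  have cp : ∀ y, U y → c y = c₁ y := fun y h0 => if_pos h0
  have cn : ∀ y, ¬U y → c y = c₂ y := fun y h0 => if_neg h0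
  have u : ∀ y ∈ Khat n, (U (c y : ℚ) ↔ U y) := by
    intro y hy
    by_cases h0 : U y
    · rw [cp y h0]; exact u₁ y hy
    · rw [cn y h0]; exact u₂ y hy
  have hc : Satisfactory n c := by
    refine ⟨fun x hx => ?_, fun i a b => ?_, fun x hx i j a b d e => ?_⟩
    · simp only [c]
      split_ifs
      · exact h₁.1 x hx
      · exact h₂.1 x hx
    · simp only [c]
      split_ifs
      · exact h₁.2.1 i a b
      · exact h₂.2.1 i a b
    · have hi := u _ (Khat.mul (Khat.nat a (b.le.trans d)) hx)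
      have hj := u _ (Khat.mul (Khat.nat (a.trans b.le) d) hx)
      rw [e, hj] at hi
      by_cases h0 : U ((i : ℚ) * x)
      · rw [cp _ h0, cp _ (hi.2 h0)] at e
        exact h₁.2.2 x hx i j a b d e
      · rw [cn _ h0, cn _ (mt hi.1 h0)] at e
        exact h₂.2.2 x hx i j a b d e
  have one : ∀ c' : ℚ → ℕ, Satisfactory n c' → c' 1 = 1 := fun c' hc' => by
    simpa using hc'.2.1 1 le_rfl hn
  have t₁ : ∀ x ∈ Khat n, c₁ (x * y) = c₁ x := fun x hx => by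
    have := (i₁ x hx y hy 1 Khat.one).2 (by rw [e₁, one c₁ h₁])
    rwa [mul_one] at this
  have t₂ : ∀ x ∈ Khat n, c₂ (x * y) ≠ c₂ x := fun x hx e =>
    e₂ (by rw [← one c₂ h₂, ← i₂ x hx y hy 1 Khat.one, mul_one]; exact e)
  have tU : ∀ x ∈ Khat n, (U (x * y) ↔ U x) := fun x hx => by
    rw [← u₁ _ (Khat.mul hx hy), t₁ x hx, u₁ x hx]
  have tc : ∀ x ∈ Khat n, (c (x * y) = c x ↔ U x) := fun x hx => by
    by_cases h0 : U x
    · rw [cp _ h0, cp _ ((tU x hx).2 h0), t₁ x hx]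
      simp [h0]
    · rw [cn _ h0, cn _ (mt (tU x hx).1 h0)]
      simp [h0, t₂ x hx]
  refine ⟨c, hc, fun k k1 k2 => ?_⟩
  have kK := Khat.nat k1 k2
  obtain ⟨i, a, b, hi⟩ : ∃ i : ℕ, 1 ≤ i ∧ i ≤ n ∧ ¬(U ((i : ℚ) * k) ↔ U k) := by
    by_cases h0 : U k
    · obtain ⟨i, a, b, e⟩ := h₁.surj kK (h₁.1 z hz).1 (h₁.1 z hz).2
      refine ⟨i, a, b, fun h => hzU ?_⟩
      rw [← u₁ z hz, ← e, u₁ _ (Khat.mul (Khat.nat a b) kK)]
      exact h.2 h0
    · obtain ⟨i, a, b, e⟩ := h₁.surj kK le_rfl hn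
      refine ⟨i, a, b, fun h => h0 (h.1 ?_)⟩
      rw [← u₁ _ (Khat.mul (Khat.nat a b) kK), e]
      simpa using hU
  refine ⟨i, a, b, fun l hl => hi ?_⟩
  have iK := Khat.nat a b
  have key : ∀ w ∈ Khat n, (c w = k ↔ c ((i : ℚ) * w) = l) := by
    intro w hw
    have hiw := Khat.mul iK hw
    have := Set.ext_iff.1 hl ((i : ℚ) * w)
    simp only [part, colorClass, Set.mem_ofPred_eq, mul_div_cancel_left₀ w (Khat.ne iK)] at this
    tauto
  have ck := hc.2.1 k k1 k2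
  rw [← tc _ (Khat.mul iK kK), ← tc _ kK, ck, (key _ kK).1 ck, key _ (Khat.mul kK hy), mul_assoc]

/-- A character of prime order that is constant on the color classes. -/
lemma exists_char {c : ℚ → ℕ} (hc : Satisfactory n c) (hi : Inv n c) (hn : 1 ≤ n) {r : ℕ}
    (hr : r.Prime) (hrn : r ∣ n) :
    ∃ χ : ℚ → ℂ, (∀ x ∈ Khat n, ∀ y ∈ Khat n, χ (x * y) = χ x * χ y) ∧
      (∀ x ∈ Khat n, ∀ y ∈ Khat n, c x = c y → χ x = χ y) ∧ (∀ x ∈ Khat n, χ x ^ r = 1) ∧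
      χ 1 = 1 ∧ ∃ z ∈ Khat n, χ z ≠ 1 := by
  classical
  let K : Subgroup ℚˣ :=
    { carrier := {u | (u : ℚ) ∈ Khat n}
      mul_mem' := fun ha hb => by simpa using Khat.mul ha hb
      one_mem' := by simpa using Khat.one
      inv_mem' := fun ha => by simpa using Khat.inv ha }
  let R : Con K :=
    { r := fun x y => c ((x : ℚˣ) : ℚ) = c ((y : ℚˣ) : ℚ)
      iseqv := ⟨fun _ => rfl, Eq.symm, Eq.trans⟩
      mul' := by
        intro w x y z h1 h2
        have a1 := (hi _ w.2 _ y.2 _ z.2).2 h2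
        have a2 := (hi _ z.2 _ w.2 _ x.2).2 h1
        simp only [Subgroup.coe_mul, Units.val_mul]
        rw [a1, mul_comm, a2, mul_comm] }
  let mk : ∀ x ∈ Khat n, K := fun x hx => ⟨Units.mk0 x (Khat.ne hx), hx⟩
  let f : R.Quotient → Finset.Icc 1 n := fun g => Quotient.liftOn' g
    (fun x : K => ⟨c ((x : ℚˣ) : ℚ), Finset.mem_Icc.2 (hc.1 _ x.2)⟩)
    (fun _ _ h => Subtype.ext h)
  have hf : Function.Bijective f := by
    constructor
    · intro a b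
      induction a using Quotient.inductionOn'
      induction b using Quotient.inductionOn'
      intro h
      exact Quotient.sound' (congrArg Subtype.val h)
    · rintro ⟨i, hi⟩
      rw [Finset.mem_Icc] at hi
      exact ⟨(mk i (Khat.nat hi.1 hi.2) : K), Subtype.ext (hc.2.1 i hi.1 hi.2)⟩
  have hcard : Nat.card R.Quotient = n := by
    rw [Nat.card_eq_of_bijective f hf, Nat.card_eq_fintype_card, Fintype.card_coe, Nat.card_Icc]
    omega
  have : Finite R.Quotient := Nat.finite_of_card_ne_zero (by omega)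
  have : NeZero (Monoid.exponent R.Quotient) := ⟨Monoid.exponent_ne_zero_of_finite⟩
  obtain ⟨E⟩ := CommGroup.monoidHom_mulEquiv_of_hasEnoughRootsOfUnity R.Quotient ℂ
  have : Fact r.Prime := ⟨hr⟩
  obtain ⟨g, hg⟩ := exists_prime_orderOf_dvd_card' (G := R.Quotient) r (hcard.symm ▸ hrn)
  have h1 : E.symm g ^ r = 1 := by rw [← map_pow, ← hg, pow_orderOf_eq_one, map_one]
  have h2 : E.symm g ≠ 1 := by
    intro e
    rw [(MulEquiv.map_eq_one_iff _).1 e, orderOf_one] at hg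
    exact hr.one_lt.ne hg
  generalize E.symm g = φ at h1 h2
  let χ : ℚ → ℂ := fun x => if hx : x ∈ Khat n then (φ (mk x hx : K) : ℂ) else 0
  have hχ : ∀ x (hx : x ∈ Khat n), χ x = (φ (mk x hx : K) : ℂ) := fun x hx => dif_pos hx
  refine ⟨χ, fun x hx y hy => ?_, fun x hx y hy e => ?_, fun x hx => ?_, ?_, ?_⟩
  · rw [hχ _ hx, hχ _ hy, hχ _ (Khat.mul hx hy), ← Units.val_mul, ← map_mul, ← Con.coe_mul]
    congr 3
    exact Subtype.ext (Units.ext rfl)
  · rw [hχ _ hx, hχ _ hy]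
    congr 2
    exact Quotient.sound' e
  · rw [hχ _ hx, ← Units.val_pow_eq_pow_val, ← MonoidHom.pow_apply, h1]
    simp
  · rw [hχ _ Khat.one]
    have : mk 1 Khat.one = 1 := Subtype.ext (Units.ext rfl)
    rw [this]
    simp
  · by_contra hcon
    push Not at hcon
    apply h2
    refine MonoidHom.ext fun a => Units.ext ?_
    induction a using Quotient.inductionOn' with
    | h x =>
      have := hcon _ x.2
      rw [hχ _ x.2] at this
      have e : mk _ x.2 = x := Subtype.ext (Units.ext rfl)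
      rw [e] at this
      exact this

end Pool.Agent.Lib.MP_aaa104_nt
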