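import Mathlib

/-!
Many primes `q` with the same quotient `n / q`.
-/

set_option autoImplicit false

namespace Pool.Agent.Lib.MP_aaa104_nt

open Finset

/-- a primality test by trial division -/
def isP (p : ℕ) : Bool :=
  decide (2 ≤ p) && decide (p < 36100) &&
    (List.range 190).all fun d => decide (d < 2) || decide (p < d * d) || decide (p % d ≠ 0)

lemma isP_prime {p : ℕ} (h : isP p = true) : p.Prime := by
  simp only [isP, Bool.and_eq_true, decide_eq_true_eq, List.all_eq_true, List.mem_range,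
    Bool.or_eq_true] at h
  obtain ⟨⟨h2, h3⟩, h4⟩ := h
  rw [Nat.prime_def_le_sqrt]
  refine ⟨h2, fun m hm hs hd => ?_⟩
  have h5 : m * m ≤ p := Nat.le_sqrt.1 hs
  have h6 : m < 190 := by nlinarith
  rcases h4 m h6 with (h7 | h7) | h7
  · omega
  · omega
  · exact h7 (Nat.mod_eq_zero_of_dvd hd)

/-- the number of tested primes in `(lo, hi]` -/
def pc (lo hi : ℕ) : ℕ := ((List.range' (lo + 1) (hi - lo)).filter isP).length

/-- a set of more than `r` primes with a common quotient -/
def Many (n r : ℕ) : Prop :=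
  ∃ (k : ℕ) (S : Finset ℕ), r < S.card ∧ ∀ q ∈ S, q.Prime ∧ 5 ≤ q ∧ q ≤ n ∧ n < q * q ∧ n / q = k

lemma many_of_pc {n r lo hi : ℕ} (h8 : 8 ≤ n) (h1 : hi ≤ n) (h2 : n ≤ 2 * lo + 1)
    (h : r < pc lo hi) : Many n r := by
  refine ⟨1, ((List.range' (lo + 1) (hi - lo)).filter isP).toFinset, ?_, ?_⟩
  · rw [List.toFinset_card_of_nodup (List.Nodup.filter _ List.nodup_range')]
    exact h
  · intro q hq
    rw [List.mem_toFinset, List.mem_filter, List.mem_range'_1] at hq
    obtain ⟨⟨a1, a2⟩, a3⟩ := hq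
    refine ⟨isP_prime a3, by omega, by omega, by nlinarith, ?_⟩
    exact Nat.div_eq_of_lt_le (by omega) (by omega)

/-- the orders treated by tables -/
def special : List ℕ := [6, 8, 9, 10, 12, 14, 15, 16, 25, 27, 35, 49]

lemma small_check : ∀ n ∈ List.range 128, n < 6 ∨ isP n = true ∨ n ∈ special ∨
    (8 ≤ n ∧ ∃ r ∈ [2, 3, 5, 7, 11], n % r = 0 ∧ r < pc (n / 2) n) := by
  decide +kernel

/-- the intervals -/
def ivs : List (ℕ × ℕ × ℕ) :=
  [(70, 128, 141), (78, 142, 157), (88, 158, 177), (100, 178, 201), (126, 202, 253),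
    (156, 254, 313), (198, 314, 397), (262, 398, 525), (366, 526, 728), (520, 729, 1023),
    (756, 1024, 1513), (1162, 1514, 2325), (1860, 2326, 3720), (3082, 3721, 6165),
    (5280, 6166, 10561), (9318, 10562, 18637), (16882, 18638, 33765)]

lemma ivs_check : ∀ t ∈ ivs, t.2.2 ≤ 2 * t.1 + 1 ∧ t.2.2 < pc t.1 t.2.1 * pc t.1 t.2.1 := by
  decide +kernel

lemma ivs_cover {n : ℕ} (h1 : 128 ≤ n) (h2 : n ≤ 33765) : ∃ t ∈ ivs, t.2.1 ≤ n ∧ n ≤ t.2.2 := by
  simp only [ivs, List.mem_cons, List.not_mem_nil, or_false, exists_eq_or_imp, exists_eq_left]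
  omega

lemma many_large {n r : ℕ} (hn : 32761 ≤ n) (hr : r * r ≤ n) : Many n r := by
  classical
  set P := (Ioc (n / 4) n).filter Nat.Prime with hP
  have hcard : 3 * r < P.card := by
    by_contra hc
    push Not at hc
    have hn0 : (0 : ℝ) < n := by exact_mod_cast (by omega : 0 < n)
    have hlog : 0 ≤ Real.log n := Real.log_nonneg (by exact_mod_cast (by omega : 1 ≤ n))
    have h1 : Chebyshev.theta n = Chebyshev.theta ((n / 4 : ℕ) : ℝ) + ∑ p ∈ P, Real.log p := by
      unfold Chebyshev.theta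
      rw [Nat.floor_natCast, Nat.floor_natCast, hP, ← sum_union, ← filter_union,
        Ioc_union_Ioc_eq_Ioc (by omega) (by omega)]
      exact disjoint_filter_filter (by
        rw [Finset.disjoint_left]
        intro a h1 h2
        rw [mem_Ioc] at h1 h2
        omega)
    have h2 : ∑ p ∈ P, Real.log p ≤ P.card * Real.log n := by
      rw [← nsmul_eq_mul]
      refine sum_le_card_nsmul _ _ _ fun p hp => ?_
      rw [hP, mem_filter, mem_Ioc] at hp
      exact Real.log_le_log (by exact_mod_cast hp.2.pos) (by exact_mod_cast hp.1.2)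
    have h3 := Chebyshev.theta_ge n
    have h4 := Chebyshev.theta_le_log4_mul_x (x := ((n / 4 : ℕ) : ℝ)) (Nat.cast_nonneg _)
    have h5 : ((n / 4 : ℕ) : ℝ) ≤ n / 4 := Nat.cast_div_le
    have h6 : Real.log 4 = 2 * Real.log 2 := by
      rw [show (4 : ℝ) = 2 ^ 2 by norm_num, Real.log_pow]
      norm_num
    have l2 := Real.log_two_gt_d9
    have l2' := Real.log_two_lt_d9
    set s := √(n : ℝ) with hs
    have hss : s * s = n := Real.mul_self_sqrt hn0.le
    have hs181 : 181 ≤ s := by
      apply Real.le_sqrt_of_sq_le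
      exact_mod_cast (by omega : 181 ^ 2 ≤ n)
    have hrs : (r : ℝ) ≤ s := by
      apply Real.le_sqrt_of_sq_le
      rw [sq]
      exact_mod_cast hr
    have h7 : Real.log n ≤ 9.1 + s / 128 := by
      have a1 : Real.log (s / 256) ≤ s / 256 - 1 := Real.log_le_sub_one_of_pos (by positivity)
      rw [Real.log_div (by positivity) (by norm_num), show (256 : ℝ) = 2 ^ 8 by norm_num,
        Real.log_pow] at a1
      rw [← hss, Real.log_mul (by positivity) (by positivity)]
      push_cast at a1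
      linarith
    have h8 : Real.log (n + 1) ≤ s := by
      have a1 : Real.log (n + 1) ≤ Real.log (2 * n) :=
        Real.log_le_log (by positivity) (by nlinarith)
      rw [Real.log_mul (by norm_num) hn0.ne'] at a1
      linarith
    have h9 : (P.card : ℝ) ≤ 3 * s := by
      have : (P.card : ℝ) ≤ 3 * r := by exact_mod_cast hc
      linarith
    have h10 : (P.card : ℝ) * Real.log n ≤ 3 * s * Real.log n :=
      mul_le_mul_of_nonneg_right h9 hlog
    have h11 : s * Real.log n ≤ s * (9.1 + s / 128) := mul_le_mul_of_nonneg_left h7 (by linarith)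
    have h12 : Real.log 4 * ((n / 4 : ℕ) : ℝ) ≤ Real.log 2 * n / 2 := by
      rw [h6]
      nlinarith
    have h13 : 0.6931 * (s * s) ≤ n * Real.log 2 := by
      rw [hss]
      nlinarith
    nlinarith
  have hmaps : ∀ q ∈ P, n / q ∈ Icc 1 3 := by
    intro q hq
    rw [hP, mem_filter, mem_Ioc] at hq
    have h0 := hq.2.pos
    rw [mem_Icc]
    refine ⟨Nat.div_pos hq.1.2 h0, Nat.le_of_lt_succ ((Nat.div_lt_iff_lt_mul h0).2 (by omega))⟩
  obtain ⟨k, -, hk⟩ := exists_lt_card_fiber_of_mul_lt_card_of_maps_to (n := r) hmaps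
    (by simpa using hcard)
  refine ⟨k, _, hk, fun q hq => ?_⟩
  rw [mem_filter, hP, mem_filter, mem_Ioc] at hq
  obtain ⟨⟨⟨a1, a2⟩, a3⟩, a4⟩ := hq
  have a5 : n < 4 * q := by omega
  exact ⟨a3, by omega, a2, by nlinarith, a4⟩

theorem many {n : ℕ} (h6 : 6 ≤ n) (hn : ¬n.Prime) (hs : n ∉ special) :
    ∃ r, r.Prime ∧ r ∣ n ∧ Many n r := by
  by_cases h1 : n < 128
  · rcases small_check n (List.mem_range.2 h1) with h | h | h | ⟨h8, r, hr, h2, h3⟩
    · omega
    · exact absurd (isP_prime h) hn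
    · exact absurd h hs
    · refine ⟨r, ?_, Nat.dvd_of_mod_eq_zero h2, many_of_pc h8 le_rfl (by omega) h3⟩
      simp only [List.mem_cons, List.not_mem_nil, or_false] at hr
      rcases hr with rfl | rfl | rfl | rfl | rfl <;> norm_num
  have hr := Nat.minFac_sq_le_self (by omega) hn
  rw [sq] at hr
  refine ⟨n.minFac, Nat.minFac_prime (by omega), Nat.minFac_dvd n, ?_⟩
  by_cases h2 : n ≤ 33765
  · obtain ⟨t, ht, a1, a2⟩ := ivs_cover (not_lt.1 h1) h2
    obtain ⟨b1, b2⟩ := ivs_check t ht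
    refine many_of_pc (lo := t.1) (hi := t.2.1) (by omega) a1 (by omega) ?_
    by_contra hc
    push Not at hc
    have := Nat.mul_le_mul hc hc
    omega
  · exact many_large (by omega) hr

end Pool.Agent.Lib.MP_aaa104_nt
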