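import Pool.Agent.Lib.MP_aaa104_nt.H3Mix
import Pool.Agent.Lib.MP_aaa104_nt.H3Primes

/-!
Exchanging two large primes.
-/

set_option autoImplicit false

namespace Pool.Agent.Lib.MP_aaa104_nt

open Finset

variable {n : ℕ}

lemma val_prime {p q : ℕ} (hp : p.Prime) (hq : q.Prime) :
    padicValRat p (q : ℚ) = if p = q then 1 else 0 := by
  have : Fact (Nat.Prime p) := ⟨hp⟩
  have : Fact (Nat.Prime q) := ⟨hq⟩
  split_ifs with h
  · subst h
    exact padicValRat.self hp.one_lt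
  · rw [padicValRat.of_nat, padicValNat_primes h]
    simp

lemma val_zero {p m : ℕ} (h : ¬p ∣ m) : padicValRat p (m : ℚ) = 0 := by
  rw [padicValRat.of_nat, padicValNat.eq_zero_of_not_dvd h]
  simp

/-- The difference of the two valuations. -/
def dl (q q' : ℕ) (x : ℚ) : ℤ := padicValRat q x - padicValRat q' x

/-- The automorphism exchanging the two primes. -/
def sw (q q' : ℕ) (x : ℚ) : ℚ := x * ((q' : ℚ) / q) ^ dl q q' x

section

variable {q q' : ℕ} (hq : q.Prime) (hq' : q'.Prime)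
include hq hq'

lemma dl_mul {x y : ℚ} (hx : x ≠ 0) (hy : y ≠ 0) : dl q q' (x * y) = dl q q' x + dl q q' y := by
  have : Fact (Nat.Prime q) := ⟨hq⟩
  have : Fact (Nat.Prime q') := ⟨hq'⟩
  unfold dl
  rw [padicValRat.mul hx hy, padicValRat.mul hx hy]
  ring

lemma w_ne : (q' : ℚ) / q ≠ 0 := by
  have := hq.pos
  have := hq'.pos
  positivity

lemma sw_mul {x y : ℚ} (hx : x ≠ 0) (hy : y ≠ 0) : sw q q' (x * y) = sw q q' x * sw q q' y := by
  unfold sw
  rw [dl_mul hq hq' hx hy, zpow_add₀ (w_ne hq hq')]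
  ring

lemma dl_left (hne : q ≠ q') : dl q q' q = 1 := by
  simp [dl, val_prime hq hq, val_prime hq' hq, hne.symm, -padicValRat.of_nat]

lemma dl_right (hne : q ≠ q') : dl q q' q' = -1 := by
  simp [dl, val_prime hq hq', val_prime hq' hq', hne, -padicValRat.of_nat]

lemma sw_sw (hne : q ≠ q') {x : ℚ} (hx : x ≠ 0) : sw q q' (sw q q' x) = x := by
  have : Fact (Nat.Prime q) := ⟨hq⟩
  have : Fact (Nat.Prime q') := ⟨hq'⟩
  have h0 := w_ne hq hq'
  have a : (q : ℚ) ≠ 0 := by exact_mod_cast hq.ne_zero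
  have b : (q' : ℚ) ≠ 0 := by exact_mod_cast hq'.ne_zero
  have h1 : dl q q' (sw q q' x) = -dl q q' x := by
    unfold sw
    rw [dl_mul hq hq' hx (zpow_ne_zero _ h0)]
    generalize dl q q' x = k
    unfold dl
    rw [padicValRat.zpow, padicValRat.zpow, padicValRat.div b a, padicValRat.div b a,
      val_prime hq hq, val_prime hq hq', val_prime hq' hq, val_prime hq' hq']
    simp [hne, hne.symm]
  rw [sw, h1, sw, mul_assoc, ← zpow_add₀ h0]
  simp

lemma sw_nat (hne : q ≠ q') (h1 : n < q * q) (h2 : n < q' * q') (h3 : n / q = n / q') {i : ℕ}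
    (hi : 1 ≤ i) (hi' : i ≤ n) : ∃ j : ℕ, 1 ≤ j ∧ j ≤ n ∧ sw q q' i = j := by
  have a : (q : ℚ) ≠ 0 := by exact_mod_cast hq.ne_zero
  have b : (q' : ℚ) ≠ 0 := by exact_mod_cast hq'.ne_zero
  have c1 : n / q < q := (Nat.div_lt_iff_lt_mul hq.pos).2 h1
  have c2 : n / q' < q' := (Nat.div_lt_iff_lt_mul hq'.pos).2 h2
  have small : ∀ m : ℕ, 0 < m → m ≤ n / q → dl q q' m = 0 := fun m h0 hm => by
    unfold dl
    rw [val_zero (Nat.not_dvd_of_pos_of_lt h0 (by omega)),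
      val_zero (Nat.not_dvd_of_pos_of_lt h0 (by omega)), sub_zero]
  by_cases d1 : q ∣ i
  · obtain ⟨m, rfl⟩ := d1
    have h0 : 0 < m := Nat.pos_of_mul_pos_left hi
    have hm : m ≤ n / q := (Nat.le_div_iff_mul_le hq.pos).2 (by rwa [mul_comm])
    refine ⟨q' * m, Nat.mul_pos hq'.pos h0, ?_, ?_⟩
    · rw [mul_comm]
      exact (Nat.le_div_iff_mul_le hq'.pos).1 (h3 ▸ hm)
    · push_cast
      rw [sw, dl_mul hq hq' a (by exact_mod_cast h0.ne'), dl_left hq hq' hne, small m h0 hm]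
      simp only [add_zero, zpow_one]
      field_simp
  by_cases d2 : q' ∣ i
  · obtain ⟨m, rfl⟩ := d2
    have h0 : 0 < m := Nat.pos_of_mul_pos_left hi
    have hm : m ≤ n / q := h3 ▸ (Nat.le_div_iff_mul_le hq'.pos).2 (by rwa [mul_comm])
    refine ⟨q * m, Nat.mul_pos hq.pos h0, ?_, ?_⟩
    · rw [mul_comm]
      exact (Nat.le_div_iff_mul_le hq.pos).1 hm
    · push_cast
      rw [sw, dl_mul hq hq' b (by exact_mod_cast h0.ne'), dl_right hq hq' hne, small m h0 hm]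
      simp only [add_zero, zpow_neg, zpow_one]
      field_simp
  · exact ⟨i, hi, hi', by simp [sw, dl, val_zero d1, val_zero d2, -padicValRat.of_nat]⟩

end

lemma exists_pair {c : ℚ → ℕ} (hc : Satisfactory n c) {q q' : ℕ} (h5 : 5 ≤ q) (h5' : 5 ≤ q')
    (hqn : q ≤ n) : ∃ a b : ℕ, (1 ≤ a ∧ a ≤ n ∧ ¬q ∣ a ∧ ¬q' ∣ a) ∧
      (1 ≤ b ∧ b ≤ n ∧ ¬q ∣ b ∧ ¬q' ∣ b) ∧ c ((a : ℚ) * q) = b := by
  by_contra hcon
  set A := (Ioc 0 n).filter fun a => ¬q ∣ a ∧ ¬q' ∣ a with hA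
  have hqK : (q : ℚ) ∈ Khat n := Khat.nat (by omega) hqn
  have mA : ∀ a, a ∈ A ↔ 1 ≤ a ∧ a ≤ n ∧ ¬q ∣ a ∧ ¬q' ∣ a := fun a => by
    rw [hA, mem_filter, mem_Ioc, and_assoc]
    rfl
  have h1 : (A.image fun a : ℕ => c ((a : ℚ) * q)).card = A.card :=
    card_image_of_injOn fun a ha b hb e => by
      have ha' := (mA a).1 ha
      have hb' := (mA b).1 hb
      exact hc.inj hqK ha'.1 ha'.2.1 hb'.1 hb'.2.1 e
  have h2 : Disjoint A (A.image fun a : ℕ => c ((a : ℚ) * q)) := by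
    rw [Finset.disjoint_left]
    intro b hb hb'
    obtain ⟨a, ha, e⟩ := mem_image.1 hb'
    exact hcon ⟨a, b, (mA a).1 ha, (mA b).1 hb, e⟩
  have h3 : A ∪ (A.image fun a : ℕ => c ((a : ℚ) * q)) ⊆ Ioc 0 n := by
    refine union_subset (filter_subset _ _) fun b hb => ?_
    obtain ⟨a, ha, rfl⟩ := mem_image.1 hb
    have ha' := (mA a).1 ha
    exact mem_Ioc.2 (hc.1 _ (Khat.mul (Khat.nat ha'.1 ha'.2.1) hqK))
  have h4 := card_le_card h3
  rw [card_union_of_disjoint h2, h1, Nat.card_Ioc] at h4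
  have h6 : Ioc 0 n ⊆ A ∪ ((Ioc 0 n).filter (q ∣ ·) ∪ (Ioc 0 n).filter (q' ∣ ·)) := by
    intro a ha
    simp only [hA, mem_union, mem_filter, ha, true_and]
    tauto
  have h7 := (card_le_card h6).trans ((card_union_le _ _).trans
    (Nat.add_le_add_left (card_union_le _ _) _))
  rw [Nat.Ioc_filter_dvd_card_eq_div, Nat.Ioc_filter_dvd_card_eq_div, Nat.card_Ioc] at h7
  have h8 : n / q ≤ n / 5 := Nat.div_le_div_left h5 (by norm_num)
  have h9 : n / q' ≤ n / 5 := Nat.div_le_div_left h5' (by norm_num)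
  omega

theorem datum_of_many {r : ℕ} (hr : r.Prime) (hrn : r ∣ n) (hm : Many n r) {c : ℚ → ℕ}
    (hc : Satisfactory n c) (hi : Inv n c) : Datum n := by
  classical
  obtain ⟨k, S, hS, hP⟩ := hm
  have hn : 1 ≤ n := by
    obtain ⟨q, hq⟩ := card_pos.1 (lt_of_le_of_lt (Nat.zero_le _) hS)
    have := hP q hq
    omega
  obtain ⟨χ, x1, x2, x3, x4, z, hz, hz1⟩ := exists_char hc hi hn hr hrn
  obtain ⟨q, hqS, q', hqS', hne, hχ⟩ := exists_ne_map_eq_of_card_lt_of_maps_to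
    (t := Polynomial.nthRootsFinset r (1 : ℂ)) (s := S)
    (lt_of_le_of_lt ((Multiset.toFinset_card_le _).trans (Polynomial.card_nthRoots r 1)) hS)
    (f := fun q : ℕ => χ q) (fun q hq => by
      have := hP q hq
      exact (Polynomial.mem_nthRootsFinset hr.pos 1).2 (x3 _ (Khat.nat (by omega) this.2.2.1)))
  obtain ⟨hq, a5, an, a2, a3⟩ := hP q hqS
  obtain ⟨hq', b5, bn, b2, b3⟩ := hP q' hqS'
  have qK : (q : ℚ) ∈ Khat n := Khat.nat (by omega) an
  have qK' : (q' : ℚ) ∈ Khat n := Khat.nat (by omega) bn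
  have wK : (q' : ℚ) / q ∈ Khat n := Khat.div qK' qK
  have hqw : (q : ℚ) * ((q' : ℚ) / q) = q' := mul_div_cancel₀ _ (Khat.ne qK)
  have x0 : ∀ x ∈ Khat n, χ x ≠ 0 := fun x hx e => by
    have := x3 x hx
    rw [e, zero_pow hr.ne_zero] at this
    exact zero_ne_one this
  have χw : χ ((q' : ℚ) / q) = 1 := by
    have := x1 _ qK _ wK
    rw [hqw, ← hχ] at this
    exact (mul_eq_left₀ (x0 _ qK)).1 this.symm
  have χz : ∀ k : ℤ, χ (((q' : ℚ) / q) ^ k) = 1 := by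
    intro k
    induction k using Int.induction_on with
    | zero => simpa using x4
    | succ k ih => rw [zpow_add_one₀ (Khat.ne wK), x1 _ (Khat.zpow wK _) _ wK, ih, χw, mul_one]
    | pred k ih =>
      have := x1 _ (Khat.zpow wK (-k - 1)) _ wK
      rw [← zpow_add_one₀ (Khat.ne wK), sub_add_cancel, ih, χw, mul_one] at this
      exact this.symm
  have sK : ∀ x ∈ Khat n, sw q q' x ∈ Khat n := fun x hx => Khat.mul hx (Khat.zpow wK _)
  have χs : ∀ x ∈ Khat n, χ (sw q q' x) = χ x := fun x hx => by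
    rw [sw, x1 _ hx _ (Khat.zpow wK _), χz, mul_one]
  let s : ℕ → ℕ := fun i => ⌊sw q q' i⌋₊
  have hs : ∀ i, 1 ≤ i → i ≤ n → 1 ≤ s i ∧ s i ≤ n ∧ sw q q' i = s i := fun i a b => by
    obtain ⟨j, j1, j2, j3⟩ := sw_nat hq hq' hne a2 b2 (a3.trans b3.symm) a b
    have : s i = j := by simp only [s, j3, Nat.floor_natCast]
    rw [this]
    exact ⟨j1, j2, j3⟩
  have hss : ∀ i, 1 ≤ i → i ≤ n → s (s i) = i := fun i a b => by
    have : sw q q' (s i) = i := by
      rw [← (hs i a b).2.2, sw_sw hq hq' hne (Khat.ne (Khat.nat a b))]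
    simp only [s] at this ⊢
    rw [this, Nat.floor_natCast]
  have cc : ∀ y ∈ Khat n, χ (c y : ℚ) = χ y := fun y hy =>
    x2 _ (Khat.nat (hc.1 y hy).1 (hc.1 y hy).2) _ hy (hc.2.1 _ (hc.1 y hy).1 (hc.1 y hy).2)
  have hc2 : Satisfactory n fun y => s (c (sw q q' y)) := by
    refine ⟨fun x hx => ?_, fun i a b => ?_, fun x hx i j a b d e => ?_⟩
    · have := hc.1 _ (sK x hx)
      exact ⟨(hs _ this.1 this.2).1, (hs _ this.1 this.2).2.1⟩
    · obtain ⟨j1, j2, j3⟩ := hs i a b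
      simp only [j3, hc.2.1 _ j1 j2, hss i a b]
    · have iK := Khat.nat a (b.le.trans d)
      have jK := Khat.nat (a.trans b.le) d
      have e1 := hc.1 _ (sK _ (Khat.mul iK hx))
      have e2 := hc.1 _ (sK _ (Khat.mul jK hx))
      have e3 := congrArg s e
      simp only [hss _ e1.1 e1.2, hss _ e2.1 e2.2] at e3
      obtain ⟨i1, i2, i3⟩ := hs i a (b.le.trans d)
      obtain ⟨j1, j2, j3⟩ := hs j (a.trans b.le) d
      rw [sw_mul hq hq' (Khat.ne iK) (Khat.ne hx), sw_mul hq hq' (Khat.ne jK) (Khat.ne hx),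
        i3, j3] at e3
      have e4 := congrArg s (hc.inj (sK x hx) i1 i2 j1 j2 e3)
      rw [hss i a (b.le.trans d), hss j (a.trans b.le) d] at e4
      omega
  obtain ⟨a, b, ⟨a1, an', ad, ad'⟩, ⟨b1, bn', bd, bd'⟩, e⟩ := exists_pair hc a5 b5 an
  have aK := Khat.nat a1 an'
  have bK := Khat.nat b1 bn'
  have yK : (a : ℚ) * q / b ∈ Khat n := Khat.div (Khat.mul aK qK) bK
  have one : c 1 = 1 := by simpa using hc.2.1 1 le_rfl hn
  have hby : (b : ℚ) * ((a : ℚ) * q / b) = a * q := mul_div_cancel₀ _ (Khat.ne bK)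
  have cy : c ((a : ℚ) * q / b) = 1 := by
    rw [← one, ← hi _ bK _ yK _ Khat.one, hby, mul_one, e, hc.2.1 b b1 bn']
  have dy : dl q q' ((a : ℚ) * q / b) = 1 := by
    have d0 : ∀ m : ℕ, ¬q ∣ m → ¬q' ∣ m → dl q q' m = 0 := fun m m1 m2 => by
      rw [dl, val_zero m1, val_zero m2, sub_zero]
    have := dl_mul hq hq' (Khat.ne bK) (Khat.ne yK)
    rw [hby, dl_mul hq hq' (Khat.ne aK) (Khat.ne qK), d0 a ad ad', d0 b bd bd',
      dl_left hq hq' hne] at this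
    omega
  refine ⟨c, fun y => s (c (sw q q' y)), fun y => χ y = 1, hc, hc2, hi, fun w hw x hx y hy => ?_,
    fun y hy => by beta_reduce; rw [cc y hy], fun y hy => ?_, x4, ⟨z, hz, hz1⟩, _, yK, cy,
    fun f1 => ?_⟩
  · have inj : ∀ x ∈ Khat n, ∀ y ∈ Khat n,
        (s (c (sw q q' x)) = s (c (sw q q' y)) ↔ c (sw q q' x) = c (sw q q' y)) := by
      intro x hx y hy
      have e1 := hc.1 _ (sK _ hx)
      have e2 := hc.1 _ (sK _ hy)
      refine ⟨fun e => ?_, congrArg s⟩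
      rw [← hss _ e1.1 e1.2, e, hss _ e2.1 e2.2]
    beta_reduce
    rw [inj _ (Khat.mul hw hx) _ (Khat.mul hw hy), inj _ hx _ hy,
      sw_mul hq hq' (Khat.ne hw) (Khat.ne hx), sw_mul hq hq' (Khat.ne hw) (Khat.ne hy)]
    exact hi _ (sK w hw) _ (sK x hx) _ (sK y hy)
  · have t := hc.1 _ (sK y hy)
    beta_reduce
    rw [← (hs _ t.1 t.2).2.2, χs _ (Khat.nat t.1 t.2), cc _ (sK y hy), χs y hy]
  have t := hc.1 _ (sK _ yK)
  have f2 := congrArg s f1
  simp only [hss _ t.1 t.2] at f2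
  have s1 : s 1 = 1 := by simp [s, sw, dl]
  rw [s1, sw, dy, zpow_one, ← cy] at f2
  have f3 := (hi _ yK _ wK _ Khat.one).1 (by rw [mul_one]; exact f2)
  have f4 := (hi _ qK _ wK _ Khat.one).2 f3
  rw [hqw, mul_one, hc.2.1 q' (by omega) bn, hc.2.1 q (by omega) an] at f4
  exact hne f4.symm

end Pool.Agent.Lib.MP_aaa104_nt
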