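import Pool.Agent.Lib.MP_aaa104_nt.H3Swap

/-!
The twelve small orders, by pairs of multiplicative colorings.
-/

set_option autoImplicit false

namespace Pool.Agent.Lib.MP_aaa104_nt

open Finset

variable {n : ℕ} {G : Type} [AddCommGroup G]

/-- The homomorphism with given values on the primes. -/
def ext (n : ℕ) (f : ℕ → G) (x : ℚ) : G :=
  ∑ p ∈ (Icc 1 n).filter Nat.Prime, padicValRat p x • f p

lemma ext_mul (f : ℕ → G) {x y : ℚ} (hx : x ≠ 0) (hy : y ≠ 0) :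
    ext n f (x * y) = ext n f x + ext n f y := by
  unfold ext
  rw [← sum_add_distrib]
  refine sum_congr rfl fun p hp => ?_
  have : Fact p.Prime := ⟨(mem_filter.1 hp).2⟩
  rw [padicValRat.mul hx hy, add_smul]

lemma ext_nat {f : ℕ → G} (h1 : f 1 = 0)
    (hf : ∀ a b, 1 ≤ a → 1 ≤ b → a * b ≤ n → f (a * b) = f a + f b) :
    ∀ i : ℕ, 1 ≤ i → i ≤ n → ext n f i = f i := by
  intro i
  induction i using induction_on_primes with
  | zero => intro h; omega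
  | one => intro _ _; simp [ext, h1]
  | prime_mul p a hp ih =>
    intro ha hb
    have ha' : 0 < a := Nat.pos_of_mul_pos_left ha
    have hpn : p ≤ n := (Nat.le_mul_of_pos_right p ha').trans hb
    rw [Nat.cast_mul, ext_mul f (by exact_mod_cast hp.ne_zero) (by exact_mod_cast ha'.ne'),
      ih ha' ((Nat.le_mul_of_pos_left a hp.pos).trans hb), hf p a hp.one_le ha' hb]
    congr 1
    unfold ext
    rw [sum_eq_single p]
    · rw [val_prime hp hp]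
      simp
    · intro q hq hqp
      rw [val_prime (mem_filter.1 hq).2 hp, if_neg hqp, zero_smul]
    · intro h
      exact absurd (mem_filter.2 ⟨mem_Icc.2 ⟨hp.one_le, hpn⟩, hp⟩) h

lemma exists_col [Fintype G] (hG : Fintype.card G = n) {f : ℕ → G} (h1 : f 1 = 0)
    (hf : ∀ a b, 1 ≤ a → 1 ≤ b → a * b ≤ n → f (a * b) = f a + f b)
    (hi : ∀ a b, 1 ≤ a → a ≤ n → 1 ≤ b → b ≤ n → f a = f b → a = b) :
    ∃ c : ℚ → ℕ, Satisfactory n c ∧ ∀ y, 1 ≤ c y ∧ c y ≤ n ∧ f (c y) = ext n f y := by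
  classical
  have hs : ∀ g : G, ∃ i, 1 ≤ i ∧ i ≤ n ∧ f i = g := by
    intro g
    have h2 : ((Icc 1 n).image f).card = Fintype.card G := by
      rw [card_image_of_injOn fun a ha b hb e => hi a b (mem_Icc.1 ha).1 (mem_Icc.1 ha).2
        (mem_Icc.1 hb).1 (mem_Icc.1 hb).2 e, Nat.card_Icc, hG]
      omega
    have h3 : g ∈ (Icc 1 n).image f := by
      rw [eq_univ_of_card _ h2]
      exact mem_univ g
    obtain ⟨i, hi, e⟩ := mem_image.1 h3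
    exact ⟨i, (mem_Icc.1 hi).1, (mem_Icc.1 hi).2, e⟩
  choose u hu using hs
  refine ⟨fun y => u (ext n f y), ⟨fun x _ => ⟨(hu _).1, (hu _).2.1⟩, fun i a b => ?_,
    fun x hx i j a b d e => ?_⟩, fun y => hu _⟩
  · exact hi _ _ (hu _).1 (hu _).2.1 a b (by rw [(hu _).2.2, ext_nat h1 hf i a b])
  · have e1 := congrArg f e
    simp only [(hu _).2.2] at e1
    rw [ext_mul f (Khat.ne (Khat.nat a (b.le.trans d))) (Khat.ne hx),
      ext_mul f (Khat.ne (Khat.nat (a.trans b.le) d)) (Khat.ne hx), add_left_inj,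
      ext_nat h1 hf i a (b.le.trans d), ext_nat h1 hf j (a.trans b.le) d] at e1
    exact b.ne (hi i j a (b.le.trans d) (a.trans b.le) d e1)

/-- The conditions on one table. -/
def Tab (n : ℕ) (L : List ℕ) : Prop :=
  L.getD 1 0 = 0 ∧ ∀ a ∈ List.range' 1 n, ∀ b ∈ List.range' 1 n,
    (a * b ≤ n → L.getD (a * b) 0 % n = (L.getD a 0 + L.getD b 0) % n) ∧
      (L.getD a 0 % n = L.getD b 0 % n → a = b)

instance (n : ℕ) (L : List ℕ) : Decidable (Tab n L) := by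
  unfold Tab
  infer_instance

lemma Tab.col {L : List ℕ} (hn : 1 ≤ n) (h : Tab n L) :
    (∀ i : ℕ, 1 ≤ i → i ≤ n → ext n (fun i => (L.getD i 0 : ZMod n)) i = (L.getD i 0 : ZMod n)) ∧
    (∀ a b, 1 ≤ a → a ≤ n → 1 ≤ b → b ≤ n →
      (L.getD a 0 : ZMod n) = (L.getD b 0 : ZMod n) → a = b) ∧
    ∃ c : ℚ → ℕ, Satisfactory n c ∧ ∀ y, 1 ≤ c y ∧ c y ≤ n ∧
      (L.getD (c y) 0 : ZMod n) = ext n (fun i => (L.getD i 0 : ZMod n)) y := by
  have : NeZero n := ⟨by omega⟩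
  have m : ∀ a, 1 ≤ a → a ≤ n → a ∈ List.range' 1 n := fun a a1 a2 =>
    List.mem_range'_1.2 ⟨a1, by omega⟩
  have h1 : (L.getD 1 0 : ZMod n) = 0 := by rw [h.1, Nat.cast_zero]
  have hf : ∀ a b, 1 ≤ a → 1 ≤ b → a * b ≤ n →
      (L.getD (a * b) 0 : ZMod n) = (L.getD a 0 : ZMod n) + (L.getD b 0 : ZMod n) := by
    intro a b a1 b1 hab
    rw [← Nat.cast_add, ZMod.natCast_eq_natCast_iff']
    exact (h.2 a (m a a1 ((Nat.le_mul_of_pos_right a b1).trans hab)) b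
      (m b b1 ((Nat.le_mul_of_pos_left b a1).trans hab))).1 hab
  have hi : ∀ a b, 1 ≤ a → a ≤ n → 1 ≤ b → b ≤ n →
      (L.getD a 0 : ZMod n) = (L.getD b 0 : ZMod n) → a = b := fun a b a1 a2 b1 b2 e =>
    (h.2 a (m a a1 a2) b (m b b1 b2)).2 ((ZMod.natCast_eq_natCast_iff' _ _ _).1 e)
  exact ⟨ext_nat h1 hf, hi, exists_col (ZMod.card n) h1 hf hi⟩

/-- The conditions on a pair of tables. -/
def Good (t : ℕ × ℕ × List ℕ × List ℕ × ℕ × ℕ × ℕ × ℕ) : Prop :=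
  t.2.1 ∣ t.1 ∧ Tab t.1 t.2.2.1 ∧ Tab t.1 t.2.2.2.1 ∧
    (∀ a ∈ List.range' 1 t.1, t.2.2.1.getD a 0 % t.2.1 = t.2.2.2.1.getD a 0 % t.2.1) ∧
    (∀ a ∈ [t.2.2.2.2.1, t.2.2.2.2.2.1, t.2.2.2.2.2.2.1, t.2.2.2.2.2.2.2], 1 ≤ a ∧ a ≤ t.1) ∧
    (t.2.2.1.getD t.2.2.2.2.1 0 + t.2.2.1.getD t.2.2.2.2.2.1 0) % t.1 =
      t.2.2.1.getD t.2.2.2.2.2.2.1 0 % t.1 ∧
    (t.2.2.2.1.getD t.2.2.2.2.1 0 + t.2.2.2.1.getD t.2.2.2.2.2.1 0) % t.1 ≠
      t.2.2.2.1.getD t.2.2.2.2.2.2.1 0 % t.1 ∧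
    t.2.2.1.getD t.2.2.2.2.2.2.2 0 % t.2.1 ≠ 0 % t.2.1

instance (t : ℕ × ℕ × List ℕ × List ℕ × ℕ × ℕ × ℕ × ℕ) : Decidable (Good t) := by
  unfold Good
  infer_instance

lemma inv_of_ext {f : ℕ → G} {c : ℚ → ℕ} (hc : ∀ y, f (c y) = ext n f y)
    (hi : ∀ x y, f (c x) = f (c y) → c x = c y) : Inv n c := by
  have key : ∀ x y, (c x = c y ↔ ext n f x = ext n f y) := fun x y =>
    ⟨fun e => by rw [← hc, ← hc, e], fun e => hi x y (by rw [hc, hc, e])⟩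
  intro z hz x hx y hy
  rw [key, key, ext_mul f (Khat.ne hz) (Khat.ne hx), ext_mul f (Khat.ne hz) (Khat.ne hy),
    add_right_inj]

theorem Good.datum {t : ℕ × ℕ × List ℕ × List ℕ × ℕ × ℕ × ℕ × ℕ} (h : Good t) :
    Datum t.1 := by
  obtain ⟨n, r, L, M, a, b, d, z⟩ := t
  obtain ⟨h1, h2, h3, h4, h5, h6, h7, h8⟩ := h
  simp only [List.mem_cons, List.not_mem_nil, or_false, forall_eq_or_imp, forall_eq] at *
  obtain ⟨⟨a1, a2⟩, ⟨b1, b2⟩, ⟨d1, d2⟩, z1, z2⟩ := h5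
  have hn : 1 ≤ n := a1.trans a2
  obtain ⟨e1, o1, c₁, s1, k1⟩ := h2.col hn
  obtain ⟨e2, o2, c₂, s2, k2⟩ := h3.col hn
  have i1 : Inv n c₁ := inv_of_ext (f := fun i => (L.getD i 0 : ZMod n)) (fun y => (k1 y).2.2)
    fun x y => o1 _ _ (k1 x).1 (k1 x).2.1 (k1 y).1 (k1 y).2.1
  have i2 : Inv n c₂ := inv_of_ext (f := fun i => (M.getD i 0 : ZMod n)) (fun y => (k2 y).2.2)
    fun x y => o2 _ _ (k2 x).1 (k2 x).2.1 (k2 y).1 (k2 y).2.1
  set φ₁ := ext n fun i => (L.getD i 0 : ZMod n) with hφ₁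
  set φ₂ := ext n fun i => (M.getD i 0 : ZMod n) with hφ₂
  let π := ZMod.castHom h1 (ZMod r)
  have p0 : ∀ i, 1 ≤ i → i ≤ n → π (L.getD i 0 : ZMod n) = π (M.getD i 0 : ZMod n) := by
    intro i i1 i2
    rw [map_natCast, map_natCast, ZMod.natCast_eq_natCast_iff']
    exact h4 i (List.mem_range'_1.2 ⟨i1, by omega⟩)
  have p1 : ∀ y, π (φ₁ y) = π (φ₂ y) := by
    intro y
    simp only [hφ₁, hφ₂, ext, map_sum, map_zsmul]
    refine sum_congr rfl fun p hp => ?_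
    have := mem_Icc.1 (mem_filter.1 hp).1
    rw [p0 p this.1 this.2]
  have aK := Khat.nat a1 a2
  have bK := Khat.nat b1 b2
  have dK := Khat.nat d1 d2
  have yK : (a : ℚ) * b / d ∈ Khat n := Khat.div (Khat.mul aK bK) dK
  have hy : ∀ f : ℕ → ZMod n, ext n f d + ext n f ((a : ℚ) * b / d) = ext n f a + ext n f b := by
    intro f
    rw [← ext_mul f (Khat.ne dK) (Khat.ne yK), mul_div_cancel₀ _ (Khat.ne dK),
      ext_mul f (Khat.ne aK) (Khat.ne bK)]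
  have cy : c₁ ((a : ℚ) * b / d) = 1 := by
    refine o1 _ 1 (k1 _).1 (k1 _).2.1 le_rfl hn ?_
    have := hy fun i => (L.getD i 0 : ZMod n)
    rw [← hφ₁, e1 a a1 a2, e1 b b1 b2, e1 d d1 d2, ← Nat.cast_add,
      (ZMod.natCast_eq_natCast_iff' _ _ _).2 h6] at this
    rw [(k1 _).2.2, h2.1, Nat.cast_zero]
    exact add_eq_left.1 this
  refine ⟨c₁, c₂, fun y => π (φ₁ y) = 0, s1, s2, i1, i2,
    fun y _ => by beta_reduce; rw [e1 _ (k1 y).1 (k1 y).2.1, (k1 y).2.2],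
    fun y _ => by beta_reduce; rw [p1, e2 _ (k2 y).1 (k2 y).2.1, (k2 y).2.2, p1],
    by simp [hφ₁, ext], ⟨z, Khat.nat z1 z2, fun e => h8 ?_⟩, _, yK, cy, fun f1 => ?_⟩
  · beta_reduce at e
    rw [e1 z z1 z2, map_natCast] at e
    exact (ZMod.natCast_eq_natCast_iff' _ _ _).1 (e.trans Nat.cast_zero.symm)
  have f2 := (k2 ((a : ℚ) * b / d)).2.2
  rw [f1, h3.1, Nat.cast_zero] at f2
  have := hy fun i => (M.getD i 0 : ZMod n)
  rw [← hφ₂, e2 a a1 a2, e2 b b1 b2, e2 d d1 d2, ← Nat.cast_add, ← f2, add_zero] at this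
  exact h7 ((ZMod.natCast_eq_natCast_iff' _ _ _).1 this.symm)

/-- The tables. -/
def tabs : List (ℕ × ℕ × List ℕ × List ℕ × ℕ × ℕ × ℕ × ℕ) :=
  [(6, 2, [0, 0, 2, 1, 4, 5, 3], [0, 0, 2, 3, 4, 1, 5], 3, 3, 2, 3),
   (8, 2, [0, 0, 1, 4, 2, 6, 5, 7, 3], [0, 0, 1, 6, 2, 4, 7, 5, 3], 2, 6, 5, 2),
   (9, 3, [0, 0, 1, 4, 2, 7, 5, 6, 3, 8], [0, 0, 1, 7, 2, 4, 8, 6, 3, 5], 2, 6, 7, 2),
   (10, 2, [0, 0, 1, 4, 2, 6, 5, 9, 3, 8, 7], [0, 0, 1, 8, 2, 4, 9, 7, 3, 6, 5], 2, 6, 5, 2),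
   (12, 2, [0, 0, 1, 4, 2, 9, 5, 7, 3, 8, 10, 11, 6], [0, 0, 1, 4, 2, 9, 5, 11, 3, 8, 10, 7,
     6], 2, 7, 9, 2),
   (14, 2, [0, 0, 1, 4, 2, 9, 5, 11, 3, 8, 10, 7, 6, 13, 12], [0, 0, 1, 4, 2, 9, 5, 11, 3,
     8, 10, 13, 6, 7, 12], 2, 11, 9, 2),
   (15, 3, [0, 0, 1, 6, 2, 13, 7, 9, 3, 12, 14, 5, 8, 11, 10, 4], [0, 0, 1, 6, 2, 13, 7, 9,
     3, 12, 14, 11, 8, 5, 10, 4], 2, 11, 3, 2),
   (16, 2, [0, 0, 1, 6, 2, 9, 7, 13, 3, 12, 10, 5, 8, 11, 14, 15, 4], [0, 0, 1, 6, 2, 9, 7,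
     13, 3, 12, 10, 11, 8, 5, 14, 15, 4], 2, 10, 13, 2),
   (25, 5, [0, 0, 1, 5, 2, 12, 6, 15, 3, 10, 13, 21, 7, 9, 16, 17, 4, 19, 11, 18, 14, 20,
     22, 23, 8, 24], [0, 0, 1, 5, 2, 12, 6, 15, 3, 10, 13, 21, 7, 9, 16, 17, 4, 19, 11, 23,
     14, 20, 22, 18, 8, 24], 2, 15, 19, 2),
   (27, 3, [0, 0, 1, 5, 2, 12, 6, 18, 3, 10, 13, 20, 7, 25, 19, 17, 4, 9, 11, 16, 14, 23,
     21, 22, 8, 24, 26, 15], [0, 0, 1, 5, 2, 12, 6, 18, 3, 10, 13, 20, 7, 25, 19, 17, 4, 9,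
     11, 22, 14, 23, 21, 16, 8, 24, 26, 15], 2, 19, 15, 2),
   (35, 5, [0, 0, 1, 6, 2, 23, 7, 26, 3, 12, 24, 15, 8, 19, 27, 29, 4, 33, 13, 10, 25, 32,
     16, 17, 9, 11, 20, 18, 28, 22, 30, 31, 5, 21, 34, 14], [0, 0, 1, 6, 2, 23, 7, 26, 3,
     12, 24, 15, 8, 19, 27, 29, 4, 33, 13, 10, 25, 32, 16, 22, 9, 11, 20, 18, 28, 17, 30,
     31, 5, 21, 34, 14], 2, 22, 23, 2),
   (49, 7, [0, 0, 1, 6, 2, 19, 7, 41, 3, 12, 20, 28, 8, 39, 42, 25, 4, 15, 13, 23, 21, 47,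
     29, 35, 9, 38, 40, 18, 43, 17, 26, 27, 5, 34, 16, 11, 14, 32, 24, 45, 22, 37, 48, 44,
     30, 31, 36, 46, 10, 33], [0, 0, 1, 6, 2, 19, 7, 41, 3, 12, 20, 28, 8, 39, 42, 25, 4,
     15, 13, 23, 21, 47, 29, 35, 9, 38, 40, 18, 43, 17, 26, 27, 5, 34, 16, 11, 14, 32, 24,
     45, 22, 44, 48, 37, 30, 31, 36, 46, 10, 33], 2, 28, 43, 2)]

lemma tabs_good : ∀ t ∈ tabs, Good t := by decide +kernel

lemma tabs_cover : ∀ n ∈ special, ∃ t ∈ tabs, t.1 = n := by decide +kernel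

theorem datum (h6 : 6 ≤ n) (hn : ¬n.Prime) {c : ℚ → ℕ} (hc : Satisfactory n c) (hi : Inv n c) :
    Datum n := by
  by_cases hs : n ∈ special
  · obtain ⟨t, ht, rfl⟩ := tabs_cover n hs
    exact (tabs_good t ht).datum
  · obtain ⟨r, hr, hrn, hm⟩ := many h6 hn hs
    exact datum_of_many hr hrn hm hc hi

/-- The coloring by residues modulo a prime. -/
lemma exists_mod {p : ℕ} (hp : p.Prime) :
    ∃ c : ℚ → ℕ, Satisfactory (p - 1) c ∧ Inv (p - 1) c := by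
  have : Fact p.Prime := ⟨hp⟩
  have h2 := hp.two_le
  have nz : ∀ i : ℕ, 1 ≤ i → i ≤ p - 1 → (i : ZMod p) ≠ 0 := fun i a b e => by
    have := Nat.le_of_dvd a ((ZMod.natCast_eq_zero_iff i p).1 e)
    omega
  let f : ℕ → Additive (ZMod p)ˣ := fun i =>
    if h : (i : ZMod p) = 0 then 0 else Additive.ofMul (Units.mk0 _ h)
  have hv : ∀ i : ℕ, 1 ≤ i → i ≤ p - 1 → ((Additive.toMul (f i) : (ZMod p)ˣ) : ZMod p) = i :=
    fun i a b => by simp [f, nz i a b]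
  have hi : ∀ a b, 1 ≤ a → a ≤ p - 1 → 1 ≤ b → b ≤ p - 1 → f a = f b → a = b := by
    intro a b a1 a2 b1 b2 e
    have e' := hv a a1 a2
    rw [e, hv b b1 b2, ZMod.natCast_eq_natCast_iff', Nat.mod_eq_of_lt (by omega),
      Nat.mod_eq_of_lt (by omega)] at e'
    exact e'.symm
  obtain ⟨c, hc, k⟩ := exists_col (n := p - 1) (G := Additive (ZMod p)ˣ)
    (by rw [Fintype.card_additive, ZMod.card_units]) (f := f)
    (by
      apply Additive.toMul.injective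
      apply Units.ext
      rw [hv 1 le_rfl (by omega)]
      simp)
    (fun a b a1 b1 hab => by
      apply Additive.toMul.injective
      apply Units.ext
      rw [toMul_add, Units.val_mul, hv _ (Nat.mul_pos a1 b1) hab,
        hv a a1 ((Nat.le_mul_of_pos_right a b1).trans hab),
        hv b b1 ((Nat.le_mul_of_pos_left b a1).trans hab), Nat.cast_mul]) hi
  exact ⟨c, hc, inv_of_ext (fun y => (k y).2.2)
    fun x y => hi _ _ (k x).1 (k x).2.1 (k y).1 (k y).2.1⟩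

/-- The coloring by residues modulo a prime, up to sign. -/
lemma exists_half (hn : 1 ≤ n) (hp : (2 * n + 1).Prime) :
    ∃ c : ℚ → ℕ, Satisfactory n c ∧ Inv n c := by
  classical
  have : Fact (2 * n + 1).Prime := ⟨hp⟩
  have nz : ∀ i : ℕ, 1 ≤ i → i ≤ 2 * n → (i : ZMod (2 * n + 1)) ≠ 0 := fun i a b e => by
    have := Nat.le_of_dvd a ((ZMod.natCast_eq_zero_iff i _).1 e)
    omega
  let H : Subgroup (ZMod (2 * n + 1))ˣ := Subgroup.zpowers (-1)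
  let u : ℕ → (ZMod (2 * n + 1))ˣ := fun i =>
    if h : (i : ZMod (2 * n + 1)) = 0 then 1 else Units.mk0 _ h
  have hv : ∀ i : ℕ, 1 ≤ i → i ≤ n → (u i : ZMod (2 * n + 1)) = i :=
    fun i a b => by simp [u, nz i a (by omega)]
  let f : ℕ → Additive ((ZMod (2 * n + 1))ˣ ⧸ H) := fun i => Additive.ofMul (u i : _ ⧸ H)
  have hi : ∀ a b, 1 ≤ a → a ≤ n → 1 ≤ b → b ≤ n → f a = f b → a = b := by
    intro a b a1 a2 b1 b2 e
    obtain ⟨k, hk⟩ := Subgroup.mem_zpowers_iff.1 (QuotientGroup.eq.1 (Additive.ofMul.injective e))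
    rw [eq_inv_mul_iff_mul_eq] at hk
    rcases Int.even_or_odd k with h | h
    · rw [h.neg_one_zpow, mul_one] at hk
      have e' := hv a a1 a2
      rw [hk, hv b b1 b2, ZMod.natCast_eq_natCast_iff', Nat.mod_eq_of_lt (by omega),
        Nat.mod_eq_of_lt (by omega)] at e'
      exact e'.symm
    · rw [h.neg_one_zpow, mul_neg_one] at hk
      have e' := hv b b1 b2
      rw [← hk, Units.val_neg, hv a a1 a2, neg_eq_iff_add_eq_zero, ← Nat.cast_add] at e'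
      exact absurd e' (nz _ (by omega) (by omega))
  have ho : orderOf (-1 : (ZMod (2 * n + 1))ˣ) = 2 := by
    refine orderOf_eq_prime (by simp) fun e => nz 2 (by omega) (by omega) ?_
    have e' := congrArg Units.val e
    rw [Units.val_neg, Units.val_one, neg_eq_iff_add_eq_zero] at e'
    rw [← e']
    norm_num
  have hG : Fintype.card (Additive ((ZMod (2 * n + 1))ˣ ⧸ H)) = n := by
    have := Subgroup.card_eq_card_quotient_mul_card_subgroup H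
    rw [Nat.card_zpowers, ho, Nat.card_eq_fintype_card, ZMod.card_units,
      Nat.card_eq_fintype_card] at this
    rw [Fintype.card_additive]
    omega
  obtain ⟨c, hc, k⟩ := exists_col (n := n) hG (f := f)
    (by
      have : u 1 = 1 := Units.ext (by rw [hv 1 le_rfl hn]; simp)
      simp only [f, this]
      rfl)
    (fun a b a1 b1 hab => by
      have : u (a * b) = u a * u b := Units.ext (by
        rw [Units.val_mul, hv _ (Nat.mul_pos a1 b1) hab,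
          hv a a1 ((Nat.le_mul_of_pos_right a b1).trans hab),
          hv b b1 ((Nat.le_mul_of_pos_left b a1).trans hab), Nat.cast_mul])
      simp only [f, this]
      rfl) hi
  exact ⟨c, hc, inv_of_ext (fun y => (k y).2.2)
    fun x y => hi _ _ (k x).1 (k x).2.1 (k y).1 (k y).2.1⟩

end Pool.Agent.Lib.MP_aaa104_nt
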